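import Pool.Agent.Helper95_CM.StB

set_option autoImplicit false
set_option linter.unusedSectionVars false

/-!
# CM project, block HB: base lemmas
-/

noncomputable section

namespace Pool.Agent.Helper95_CM.H53

open MvPolynomial Pool.Agent.Helper95_CM

section basic
variable {n M : ℕ} {R : Type} [CommRing R]

lemma th_monomial (i : Fin (n + 1)) (s : Expo n) (r : R) :
    th i (monomial s r) = monomial s ((s i : R) * r) := by
  unfold th
  rw [Derivation.smul_apply, pderiv_monomial, smul_eq_mul, X, monomial_mul, one_mul]
  by_cases h : s i = 0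
  · simp [h]
  · have h1 : Finsupp.single i 1 + (s - Finsupp.single i 1) = s := by
      ext j
      by_cases hj : j = i
      · subst hj
        simp
        omega
      · simp [hj]
    rw [h1, mul_comm]

lemma coeff_th (i : Fin (n + 1)) (x : PP n R) (s : Expo n) :
    coeff s (th i x) = (s i : R) * coeff s x := by
  classical
  induction x using MvPolynomial.induction_on' with
  | monomial a b =>
    rw [th_monomial, coeff_monomial, coeff_monomial]
    split_ifs with h
    · subst h; ring
    · simp
  | add f g hf hg =>
    rw [map_add, coeff_add, coeff_add, hf, hg]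
    ring

lemma th_comm (i j : Fin (n + 1)) (x : PP n R) : th i (th j x) = th j (th i x) := by
  ext s
  rw [coeff_th, coeff_th, coeff_th, coeff_th]
  ring

/-! ### supports -/

lemma supp_zero {P : Expo n → Prop} : Supp P (0 : PP n R) := by
  intro s hs
  exact absurd (coeff_zero s) hs

lemma supp_add {P : Expo n → Prop} {x y : PP n R} (hx : Supp P x) (hy : Supp P y) :
    Supp P (x + y) := by
  intro s hs
  rw [coeff_add] at hs
  by_cases h : coeff s x = 0
  · rw [h, zero_add] at hs
    exact hy s hs
  · exact hx s h

lemma supp_neg {P : Expo n → Prop} {x : PP n R} (hx : Supp P x) : Supp P (-x) := by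
  intro s hs
  rw [coeff_neg] at hs
  exact hx s (by simpa using hs)

lemma supp_sub {P : Expo n → Prop} {x y : PP n R} (hx : Supp P x) (hy : Supp P y) :
    Supp P (x - y) := by
  rw [sub_eq_add_neg]
  exact supp_add hx (supp_neg hy)

lemma supp_sum {P : Expo n → Prop} {ι : Type*} {S : Finset ι} {x : ι → PP n R}
    (hx : ∀ i ∈ S, Supp P (x i)) : Supp P (∑ i ∈ S, x i) := by
  classical
  induction S using Finset.induction_on with
  | empty => simpa using supp_zero
  | insert a S ha ih =>
    rw [Finset.sum_insert ha]
    exact supp_add (hx a (Finset.mem_insert_self _ _))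
      (ih fun i hi => hx i (Finset.mem_insert_of_mem hi))

lemma supp_C_mul {P : Expo n → Prop} {x : PP n R} (r : R) (hx : Supp P x) :
    Supp P (C r * x) := by
  intro s hs
  rw [coeff_C_mul] at hs
  exact hx s (right_ne_zero_of_mul hs)

lemma supp_smul {P : Expo n → Prop} {x : PP n R} (r : R) (hx : Supp P x) :
    Supp P (r • x) := by
  rw [smul_eq_C_mul]
  exact supp_C_mul r hx

lemma supp_th {P : Expo n → Prop} {x : PP n R} (i : Fin (n + 1)) (hx : Supp P x) :
    Supp P (th i x) := by
  intro s hs
  rw [coeff_th] at hs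
  exact hx s (right_ne_zero_of_mul hs)

lemma supp_mono {P Q : Expo n → Prop} {x : PP n R} (h : ∀ s, P s → Q s) (hx : Supp P x) :
    Supp Q x := fun s hs => h s (hx s hs)

lemma supp_monomial {P : Expo n → Prop} {s : Expo n} (r : R) (h : P s) :
    Supp P (monomial s r : PP n R) := by
  classical
  intro s' hs'
  rw [coeff_monomial] at hs'
  split_ifs at hs' with h2
  · subst h2; exact h
  · exact absurd rfl hs'

lemma supp_mon {P : Expo n → Prop} {s : Expo n} (h : P s) : Supp P (mon s : PP n R) :=
  supp_monomial 1 h

lemma supp_mul {P Q T : Expo n → Prop} {x y : PP n R}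
    (h : ∀ a b, P a → Q b → T (a + b)) (hx : Supp P x) (hy : Supp Q y) :
    Supp T (x * y) := by
  classical
  intro s hs
  rw [coeff_mul] at hs
  obtain ⟨⟨a, b⟩, hab, hne⟩ := Finset.exists_ne_zero_of_sum_ne_zero hs
  rw [Finset.HasAntidiagonal.mem_antidiagonal] at hab
  simp only at hab hne
  rw [← hab]
  exact h a b (hx a (left_ne_zero_of_mul hne)) (hy b (right_ne_zero_of_mul hne))

lemma supp_map {S : Type} [CommRing S] (g : R →+* S) {P : Expo n → Prop} {x : PP n R}
    (hx : Supp P x) : Supp P (map g x) := by
  intro s hs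
  rw [coeff_map] at hs
  apply hx s
  intro h0
  rw [h0, map_zero] at hs
  exact hs rfl

lemma inCone_add {b : Bool} {a s : Expo n} (ha : InCone M false a) (hs : InCone M b s) :
    InCone M b (a + s) := by
  cases b with
  | false =>
    intro k
    have h1 := ha k
    have h2 := hs k
    simp only [Finsupp.add_apply]
    rw [mul_add]
    omega
  | true =>
    intro k
    have h1 := ha k
    have h2 := hs k
    simp only [Finsupp.add_apply]
    rw [mul_add]
    omega

lemma cone_mul {b : Bool} {x y : PP n R} (hx : IsCone M false x) (hy : IsCone M b y) :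
    IsCone M b (x * y) :=
  supp_mul (fun _ _ => inCone_add) hx hy

lemma lev_mul {l m : ℕ} {x y : PP n R} (hx : HasLev l x) (hy : HasLev m y) :
    HasLev (l + m) (x * y) :=
  supp_mul (fun a b ha hb => by
    simp only [Finsupp.add_apply]
    omega) hx hy

lemma cone_gex (β : Grid n M) : InCone M false (gex β) := by
  intro k
  rw [gex_succ, gex_zero, mul_one]
  have := (β k).2
  omega

lemma cone_Fp (c : Grid n M → R) : IsCone M false (Fp c) := by
  unfold Fp
  exact supp_sum fun β _ => supp_monomial _ (cone_gex β)

lemma lev_Fp (c : Grid n M → R) : HasLev 1 (Fp c) := by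
  unfold Fp
  exact supp_sum fun β _ => supp_monomial _ (gex_zero β)

lemma cone_Yp (c : Grid n M → R) (i : Fin (n + 1)) : IsCone M false (Yp c i) :=
  supp_th i (cone_Fp c)

lemma lev_Yp (c : Grid n M → R) (i : Fin (n + 1)) : HasLev 1 (Yp c i) :=
  supp_th i (lev_Fp c)

lemma cone_Dop {b : Bool} (c : Grid n M → R) (i : Fin (n + 1)) {x : PP n R}
    (hx : IsCone M b x) : IsCone M b (Dop c i x) := by
  rw [Dop_apply]
  exact supp_sub (supp_th i hx) (cone_mul (cone_Yp c i) hx)

lemma Dop_comm (c : Grid n M → R) (i j : Fin (n + 1)) (x : PP n R) :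
    Dop c i (Dop c j x) = Dop c j (Dop c i x) := by
  simp only [Dop_apply]
  have h1 : th i (Yp c j) = th j (Yp c i) := th_comm i j _
  rw [map_sub, map_sub, Derivation.leibniz, Derivation.leibniz, th_comm i j x, h1]
  simp only [smul_eq_mul]
  ring

lemma Yp_mul (c : Grid n M → R) (i : Fin (n + 1)) (x : PP n R) :
    Yp c i * x = th i x - Dop c i x := by
  rw [Dop_apply]; ring

/-! ### change of rings -/

lemma map_th {S : Type} [CommRing S] (g : R →+* S) (i : Fin (n + 1)) (x : PP n R) :
    map g (th i x) = th i (map g x) := by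
  ext s
  rw [coeff_map, coeff_th, coeff_th, coeff_map, map_mul, map_natCast]

lemma map_Fp {S : Type} [CommRing S] (g : R →+* S) (c : Grid n M → R) :
    map g (Fp c) = Fp (fun β => g (c β)) := by
  unfold Fp
  rw [map_sum]
  simp only [map_monomial]

lemma map_Yp {S : Type} [CommRing S] (g : R →+* S) (c : Grid n M → R) (i : Fin (n + 1)) :
    map g (Yp c i) = Yp (fun β => g (c β)) i := by
  unfold Yp
  rw [map_th, map_Fp]

lemma map_Dop {S : Type} [CommRing S] (g : R →+* S) (c : Grid n M → R) (i : Fin (n + 1))
    (x : PP n R) : map g (Dop c i x) = Dop (fun β => g (c β)) i (map g x) := by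
  rw [Dop_apply, Dop_apply, map_sub, map_mul, map_th, map_Yp]

lemma map_Jac {S : Type} [CommRing S] (g : R →+* S) (c : Grid n M → R) :
    map g (Jac c) = Jac (fun β => g (c β)) := by
  unfold Jac
  rw [RingHom.map_det]
  congr 1
  ext1 i j
  simp only [RingHom.mapMatrix_apply, Matrix.map_apply, Hes, Matrix.of_apply]
  rw [map_th, map_th, map_Fp]

lemma map_mon {S : Type} [CommRing S] (g : R →+* S) (s : Expo n) :
    map g (mon s : PP n R) = mon s := by
  unfold mon
  rw [map_monomial, map_one]

lemma map_bbo {S : Type} [CommRing S] (g : R →+* S) (b : Bool) (top : Expo n)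
    (c : Grid n M → R) (s : Expo n) :
    map g (bbo b top c s) = bbo b top (fun β => g (c β)) s := by
  unfold bbo
  split_ifs
  · exact map_Jac g c
  · exact map_mon g s

/-! ### homogeneous components -/

lemma key_cmp (l : ℕ) (z : PP n R) (s : Expo n) :
    coeff s (z.support.sum fun s => if s 0 = l then monomial s (coeff s z) else 0)
      = if s 0 = l then coeff s z else 0 := by
  classical
  rw [coeff_sum]
  have : ∀ s' ∈ z.support, coeff s (if s' 0 = l then monomial s' (coeff s' z) else 0)
      = if s' = s then (if s 0 = l then coeff s z else 0) else 0 := by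
    intro s' _
    by_cases h : s' = s
    · subst h
      rw [if_pos rfl]
      split_ifs
      · rw [coeff_monomial, if_pos rfl]
      · simp
    · rw [if_neg h]
      split_ifs
      · rw [coeff_monomial, if_neg h]
      · simp
  rw [Finset.sum_congr rfl this, Finset.sum_ite_eq' z.support s]
  split_ifs with h1 h2 h2
  · rfl
  · rfl
  · exact (notMem_support_iff.mp h1).symm
  · rfl

/-- component of level `l` -/
def cmp (l : ℕ) : PP n R →ₗ[R] PP n R where
  toFun x := x.support.sum fun s => if s 0 = l then monomial s (coeff s x) else 0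
  map_add' x y := by
    ext s
    rw [coeff_add, key_cmp, key_cmp, key_cmp]
    split_ifs
    · rw [coeff_add]
    · simp
  map_smul' r x := by
    ext s
    rw [RingHom.id_apply, coeff_smul, key_cmp, key_cmp]
    split_ifs
    · rw [coeff_smul]
    · simp

lemma coeff_cmp (l : ℕ) (z : PP n R) (s : Expo n) :
    coeff s (cmp l z) = if s 0 = l then coeff s z else 0 := key_cmp l z s

lemma cmp_supp {P : Expo n → Prop} {x : PP n R} (l : ℕ) (hx : Supp P x) :
    Supp P (cmp l x) := by
  intro s hs
  rw [coeff_cmp] at hs
  split_ifs at hs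
  · exact hx s hs
  · exact absurd rfl hs

lemma cmp_lev (l : ℕ) (x : PP n R) : HasLev l (cmp l x) := by
  intro s hs
  rw [coeff_cmp] at hs
  split_ifs at hs with h
  · exact h
  · exact absurd rfl hs

lemma cmp_of_lev {l : ℕ} {x : PP n R} (hx : HasLev l x) : cmp l x = x := by
  ext s
  rw [coeff_cmp]
  split_ifs with h
  · rfl
  · by_contra h2
    exact h (hx s fun h3 => h2 h3.symm)

lemma cmp_of_lev_ne {l m : ℕ} {x : PP n R} (hx : HasLev m x) (h : l ≠ m) : cmp l x = 0 := by
  ext s
  rw [coeff_cmp, coeff_zero]
  split_ifs with h1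
  · by_contra h2
    exact h (h1.symm.trans (hx s h2))
  · rfl

lemma cmp_mul_lev {l : ℕ} {y : PP n R} (hy : HasLev 1 y) (x : PP n R) :
    cmp (l + 1) (y * x) = y * cmp l x := by
  classical
  ext s
  rw [coeff_cmp, coeff_mul, coeff_mul]
  split_ifs with h
  · apply Finset.sum_congr rfl
    intro ab hab
    rw [Finset.HasAntidiagonal.mem_antidiagonal] at hab
    rw [coeff_cmp]
    split_ifs with h2
    · rfl
    · rw [mul_zero]
      by_contra h3
      apply h2
      have h4 := hy ab.1 (left_ne_zero_of_mul h3)
      have h5 : (ab.1 + ab.2) 0 = l + 1 := by rw [hab, h]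
      simp only [Finsupp.add_apply] at h5
      simp only at h4
      omega
  · symm
    apply Finset.sum_eq_zero
    intro ab hab
    rw [Finset.HasAntidiagonal.mem_antidiagonal] at hab
    rw [coeff_cmp]
    split_ifs with h2
    · by_contra h3
      apply h
      have h4 := hy ab.1 (left_ne_zero_of_mul h3)
      rw [← hab]
      simp only [Finsupp.add_apply]
      simp only at h4
      omega
    · rw [mul_zero]

lemma cmp_zero_mul_lev {y : PP n R} (hy : HasLev 1 y) (x : PP n R) :
    cmp 0 (y * x) = 0 := by
  classical
  ext s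
  rw [coeff_cmp, coeff_zero]
  split_ifs with h
  · rw [coeff_mul]
    apply Finset.sum_eq_zero
    intro ab hab
    rw [Finset.HasAntidiagonal.mem_antidiagonal] at hab
    by_contra h3
    have h4 := hy ab.1 (left_ne_zero_of_mul h3)
    have h5 : (ab.1 + ab.2) 0 = 0 := by rw [hab, h]
    simp only [Finsupp.add_apply] at h5
    simp only at h4
    omega
  · rfl

end basic

end Pool.Agent.Helper95_CM.H53
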