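import Pool.Agent.Helper53_CM.Base

set_option autoImplicit false
set_option linter.unusedSectionVars false

/-!
# CM project, block HB: HB1 - HB5
-/

noncomputable section

namespace Pool.Agent.Helper95_CM.H53

open MvPolynomial Pool.Agent.Helper95_CM

/-! ### Koszul relations -/

lemma koszul {N : ℕ} {R : Type} [CommRing R] : ∀ (k : ℕ), k ≤ N →
    ∀ w : Fin N → MvPolynomial (Fin N) R, (∀ i, k ≤ i.1 → w i = 0) →
    ∑ i, X i * w i = 0 →
    ∃ U : Fin N → Fin N → MvPolynomial (Fin N) R, ∀ i, w i = ∑ j, X j * (U i j - U j i) := by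
  classical
  intro k
  induction k with
  | zero =>
    intro _ w hw _
    refine ⟨fun _ _ => 0, fun i => ?_⟩
    rw [hw i (Nat.zero_le _)]
    simp
  | succ k ih =>
    intro hk w hw hsum
    set i0 : Fin N := ⟨k, hk⟩ with hi0
    have hmem : w i0 ∈ Ideal.span ((X : Fin N → MvPolynomial (Fin N) R) '' {j | j.1 < k}) := by
      rw [mem_ideal_span_X_image]
      have h1 : X i0 * w i0 ∈
          Ideal.span ((X : Fin N → MvPolynomial (Fin N) R) '' {j | j.1 < k}) := by
        have h2 : X i0 * w i0 = - ∑ i ∈ Finset.univ.erase i0, X i * w i := by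
          rw [← Finset.add_sum_erase _ _ (Finset.mem_univ i0)] at hsum
          exact eq_neg_of_add_eq_zero_left hsum
        rw [h2]
        apply Ideal.neg_mem_iff _ |>.mpr
        apply Ideal.sum_mem
        intro i hi
        by_cases hik : i.1 < k
        · exact Ideal.mul_mem_right _ _ (Ideal.subset_span ⟨i, hik, rfl⟩)
        · have : i ≠ i0 := Finset.ne_of_mem_erase hi
          rw [hw i, mul_zero]
          · exact Ideal.zero_mem _
          · have h3 : i.1 ≠ k := fun h => this (Fin.ext h)
            omega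
      rw [mem_ideal_span_X_image] at h1
      intro m hm
      have h3 : m + Finsupp.single i0 1 ∈ (X i0 * w i0).support := by
        rw [mem_support_iff, mul_comm, coeff_mul_X]
        exact mem_support_iff.mp hm
      obtain ⟨i, hi, hne⟩ := h1 _ h3
      refine ⟨i, hi, ?_⟩
      have h4 : i ≠ i0 := by
        intro h
        rw [h] at hi
        exact lt_irrefl k hi
      simpa [Finsupp.single_apply, h4.symm] using hne
    have hrep : ∃ v : Fin N → MvPolynomial (Fin N) R, (∀ j, k ≤ j.1 → v j = 0) ∧
        w i0 = ∑ j, X j * v j := by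
      refine Submodule.span_induction (p := fun x _ => ∃ v : Fin N → MvPolynomial (Fin N) R,
        (∀ j, k ≤ j.1 → v j = 0) ∧ x = ∑ j, X j * v j) ?_ ?_ ?_ ?_ hmem
      · rintro x ⟨j, hj, rfl⟩
        refine ⟨Pi.single j 1, ?_, ?_⟩
        · intro i hi
          have : i ≠ j := by
            intro h
            rw [h] at hi
            exact absurd hj (not_lt.mpr hi)
          simp [this]
        · rw [Finset.sum_eq_single j]
          · simp
          · intro i _ hij
            simp [hij]
          · intro h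
            exact absurd (Finset.mem_univ j) h
      · exact ⟨fun _ => 0, fun _ _ => rfl, by simp⟩
      · rintro x y _ _ ⟨v, hv, rfl⟩ ⟨v', hv', rfl⟩
        refine ⟨fun j => v j + v' j, ?_, ?_⟩
        · intro j hj
          show v j + v' j = 0
          rw [hv j hj, hv' j hj, add_zero]
        · rw [← Finset.sum_add_distrib]
          exact Finset.sum_congr rfl fun j _ => by ring
      · rintro a x _ ⟨v, hv, rfl⟩
        refine ⟨fun j => a * v j, ?_, ?_⟩
        · intro j hj
          show a * v j = 0
          rw [hv j hj, mul_zero]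
        · rw [smul_eq_mul, Finset.mul_sum]
          exact Finset.sum_congr rfl fun j _ => by ring
    obtain ⟨v, hv, hwv⟩ := hrep
    have hvi0 : v i0 = 0 := hv i0 le_rfl
    obtain ⟨U, hU⟩ := ih (by omega) (fun i => w i - (if i = i0 then w i0 else 0) + X i0 * v i)
      (by
        intro i hi
        by_cases h : i = i0
        · subst h
          simp [hvi0]
        · have h3 : i.1 ≠ k := fun h' => h (Fin.ext h')
          simp only [if_neg h]
          rw [hw i (by omega), hv i hi]
          simp)
      (by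
        simp only [mul_add, mul_sub, Finset.sum_add_distrib, Finset.sum_sub_distrib, hsum]
        have h1 : ∑ i, X i * (if i = i0 then w i0 else 0) = X i0 * w i0 := by
          rw [Finset.sum_eq_single i0]
          · simp
          · intro i _ hi
            simp [hi]
          · intro h
            exact absurd (Finset.mem_univ i0) h
        have h2 : ∑ i, X i * (X i0 * v i) = X i0 * w i0 := by
          rw [hwv, Finset.mul_sum]
          exact Finset.sum_congr rfl fun j _ => by ring
        rw [h1, h2]
        ring)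
    refine ⟨fun i j => U i j + (if i = i0 then v j else 0), fun i => ?_⟩
    have h1 : ∑ j, X j * (U i j + (if i = i0 then v j else 0) -
        (U j i + (if j = i0 then v i else 0)))
        = (∑ j, X j * (U i j - U j i)) + ((∑ j, X j * (if i = i0 then v j else 0)) -
          ∑ j, X j * (if j = i0 then v i else 0)) := by
      rw [← Finset.sum_sub_distrib, ← Finset.sum_add_distrib]
      exact Finset.sum_congr rfl fun j _ => by ring
    rw [h1, ← hU i]
    have h2 : ∑ j, X j * (if j = i0 then v i else 0) = X i0 * v i := by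
      rw [Finset.sum_eq_single i0]
      · simp
      · intro i _ hi
        simp [hi]
      · intro h
        exact absurd (Finset.mem_univ i0) h
    rw [h2]
    by_cases h : i = i0
    · subst h
      simp only [if_true]
      rw [← hwv]
      ring
    · simp only [if_neg h]
      simp

lemma koszul' {N : ℕ} {R : Type} [CommRing R] (w : Fin N → MvPolynomial (Fin N) R)
    (h : ∑ i, X i * w i = 0) :
    ∃ U : Fin N → Fin N → MvPolynomial (Fin N) R, ∀ i, w i = ∑ j, X j * (U i j - U j i) :=
  koszul N le_rfl w (fun i hi => absurd i.2 (not_lt.mpr hi)) h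

/-! ### induction on monomials -/

lemma supp_induction {n : ℕ} {R : Type} [CommRing R] {P : Expo n → Prop} {G : PP n R → Prop}
    (h0 : G 0) (hadd : ∀ x y, G x → G y → G (x + y))
    (hmon : ∀ s r, P s → G (monomial s r)) (x : PP n R) (hx : Supp P x) : G x := by
  classical
  rw [x.as_sum]
  have : ∀ S : Finset (Expo n), S ⊆ x.support → G (∑ v ∈ S, monomial v (coeff v x)) := by
    intro S
    induction S using Finset.induction_on with
    | empty => intro _; simpa using h0
    | insert a S ha ih =>
      intro hS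
      rw [Finset.sum_insert ha]
      refine hadd _ _ (hmon _ _ (hx a ?_)) (ih fun y hy => hS (Finset.mem_insert_of_mem hy))
      exact mem_support_iff.mp (hS (Finset.mem_insert_self _ _))
  exact this _ le_rfl

lemma exists_lev {n N : ℕ} {R : Type} [CommRing R] (σ : Fin N → PP n R) :
    ∃ l, ∀ i, Supp (fun s => s 0 < l) (σ i) := by
  refine ⟨(Finset.univ.sup fun i => (σ i).support.sup fun s => s 0) + 1, ?_⟩
  intro i s hs
  have h1 : s 0 ≤ (σ i).support.sup fun s => s 0 :=
    Finset.le_sup (f := fun s : Expo n => s 0) (mem_support_iff.mpr hs)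
  have h2 : ((σ i).support.sup fun s => s 0) ≤
      Finset.univ.sup fun i => (σ i).support.sup fun s => s 0 :=
    Finset.le_sup (f := fun i => (σ i).support.sup fun s : Expo n => s 0) (Finset.mem_univ i)
  show s 0 < _
  omega

section cad
variable {n M : ℕ} {b : Bool} (A : CAD n M b) {R : Type} [CommRing R] (c : Grid n M → R)

/-- `Σ w_s(Y) b_s` -/
def Phi : (A.Bas → MvPolynomial (Fin (n + 1)) R) →ₗ[R] PP n R :=
  ∑ s : A.Bas, (LinearMap.mulRight R (bb A c s.1)) ∘ₗ (aeval (Yp c)).toLinearMap ∘ₗ
    LinearMap.proj s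

lemma Phi_apply (w : A.Bas → MvPolynomial (Fin (n + 1)) R) :
    Phi A c w = ∑ s : A.Bas, aeval (Yp c) (w s) * bb A c s.1 := by
  simp [Phi, LinearMap.sum_apply]

lemma Phi_C (r : A.Bas → R) : Phi A c (fun s => C (r s)) = ∑ s : A.Bas, C (r s) * bb A c s.1 := by
  rw [Phi_apply]
  refine Finset.sum_congr rfl fun s _ => ?_
  rw [aeval_C]
  rfl

lemma Phi_X (i : Fin (n + 1)) (w : A.Bas → MvPolynomial (Fin (n + 1)) R) :
    Phi A c (fun s => X i * w s) = Yp c i * Phi A c w := by
  rw [Phi_apply, Phi_apply, Finset.mul_sum]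
  refine Finset.sum_congr rfl fun s _ => ?_
  rw [map_mul, aeval_X, mul_assoc]

lemma Phi_inj (hdt : IsUnit (dt A c)) (w : A.Bas → MvPolynomial (Fin (n + 1)) R)
    (h : Phi A c w = 0) : w = 0 := by
  classical
  have h1 := A.inj R c hdt (fun s => if hs : s ∈ A.Bas then w ⟨s, hs⟩ else 0) (by
    rw [← Finset.sum_coe_sort]
    rw [Phi_apply] at h
    rw [← h]
    refine Finset.sum_congr rfl fun s _ => ?_
    rw [dif_pos s.2]
    rfl)
  ext1 s
  have h2 := h1 s.1 s.2
  rw [dif_pos s.2] at h2
  exact h2

lemma aeval_mem {S : Subring R} (hc : ∀ β, c β ∈ S) (P : MvPolynomial (Grid n M) ℤ) :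
    aeval c P ∈ S := by
  induction P using MvPolynomial.induction_on with
  | C z =>
    rw [aeval_C]
    exact intCast_mem S z
  | add f g hf hg =>
    rw [map_add]
    exact S.add_mem hf hg
  | mul_X f i hf =>
    rw [map_mul, aeval_X]
    exact S.mul_mem hf (hc i)

lemma red_at (s : Expo n) (hs : InCone M b s) : ∃ (a : Expo n → R) (σ : Fin (n + 1) → PP n R),
    (∀ i, IsCone M b (σ i)) ∧ (∀ i, Supp (fun s' => s' 0 + 1 = s 0) (σ i)) ∧
    C (dt A c) * mon s = (∑ s' ∈ A.Bas with s' 0 = s 0, C (a s') * bb A c s')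
      + ∑ i, Yp c i * σ i ∧
    (∀ S : Subring R, (∀ β, c β ∈ S) → (∀ s', a s' ∈ S) ∧ ∀ i s', coeff s' (σ i) ∈ S) := by
  obtain ⟨a, σ, h1, h2, h3⟩ := A.red s hs
  set g : MvPolynomial (Grid n M) ℤ →+* R :=
    (aeval c : MvPolynomial (Grid n M) ℤ →ₐ[ℤ] R).toRingHom with hg
  have hgc : (fun β => g (gen n M β)) = c := by
    ext1 β
    show aeval c (X β) = c β
    rw [aeval_X]
  refine ⟨fun s' => g (a s'), fun i => map g (σ i), fun i => supp_map g (h1 i),
    fun i => supp_map g (h2 i), ?_, ?_⟩
  · have h4 := congrArg (map g) h3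
    rw [map_mul, map_C, map_mon, map_add, map_sum, map_sum] at h4
    have h5 : (g A.Dt) = dt A c := rfl
    rw [h5] at h4
    rw [h4]
    congr 1
    · refine Finset.sum_congr rfl fun s' _ => ?_
      rw [map_mul, map_C, map_bbo, hgc]
      rfl
    · refine Finset.sum_congr rfl fun i _ => ?_
      rw [map_mul, map_Yp, hgc]
  · intro S hS
    refine ⟨fun s' => aeval_mem c hS _, fun i s' => ?_⟩
    rw [coeff_map]
    exact aeval_mem c hS _

/-! ### existence -/

/-- decomposition with levels -/
def EE (l : ℕ) (x : PP n R) : Prop :=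
  ∃ (r : A.Bas → R) (σ : Fin (n + 1) → PP n R), (∀ i, IsCone M b (σ i)) ∧
    (∀ i, Supp (fun s => s 0 + 1 < l) (σ i)) ∧
    x = (∑ s : A.Bas, C (r s) * bb A c s) + ∑ i, Dop c i (σ i) ∧
    (∀ s : A.Bas, l ≤ s.1 0 → r s = 0)

variable {A c}

lemma EE_zero (l : ℕ) : EE A c l 0 :=
  ⟨fun _ => 0, fun _ => 0, fun _ => supp_zero, fun _ => supp_zero, by simp, fun _ _ => rfl⟩

lemma EE_add {l : ℕ} {x y : PP n R} (hx : EE A c l x) (hy : EE A c l y) :
    EE A c l (x + y) := by
  obtain ⟨r, σ, h1, h2, h3, h4⟩ := hx
  obtain ⟨r', σ', h1', h2', h3', h4'⟩ := hy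
  refine ⟨fun s => r s + r' s, fun i => σ i + σ' i, fun i => supp_add (h1 i) (h1' i),
    fun i => supp_add (h2 i) (h2' i), ?_, fun s hs => ?_⟩
  · rw [h3, h3']
    have e1 : ∑ s : A.Bas, C (r s + r' s) * bb A c s.1 =
        (∑ s : A.Bas, C (r s) * bb A c s.1) + ∑ s : A.Bas, C (r' s) * bb A c s.1 := by
      rw [← Finset.sum_add_distrib]
      exact Finset.sum_congr rfl fun s _ => by rw [C_add, add_mul]
    have e2 : ∑ i, Dop c i (σ i + σ' i) = (∑ i, Dop c i (σ i)) + ∑ i, Dop c i (σ' i) := by
      rw [← Finset.sum_add_distrib]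
      exact Finset.sum_congr rfl fun s _ => map_add _ _ _
    rw [e1, e2]
    ring
  · show r s + r' s = 0
    rw [h4 s hs, h4' s hs, add_zero]

lemma EE_C {l : ℕ} (a : R) {x : PP n R} (hx : EE A c l x) : EE A c l (C a * x) := by
  obtain ⟨r, σ, h1, h2, h3, h4⟩ := hx
  refine ⟨fun s => a * r s, fun i => C a * σ i, fun i => supp_C_mul a (h1 i),
    fun i => supp_C_mul a (h2 i), ?_, fun s hs => ?_⟩
  · rw [h3]
    have e1 : ∑ s : A.Bas, C (a * r s) * bb A c s.1 =
        C a * ∑ s : A.Bas, C (r s) * bb A c s.1 := by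
      rw [Finset.mul_sum]
      exact Finset.sum_congr rfl fun s _ => by rw [C_mul, mul_assoc]
    have e2 : ∑ i, Dop c i (C a * σ i) = C a * ∑ i, Dop c i (σ i) := by
      rw [Finset.mul_sum]
      refine Finset.sum_congr rfl fun s _ => ?_
      rw [← smul_eq_C_mul, ← smul_eq_C_mul, map_smul]
    rw [e1, e2]
    ring
  · show a * r s = 0
    rw [h4 s hs, mul_zero]

lemma EE_sum {l : ℕ} {ι : Type*} (S : Finset ι) (x : ι → PP n R)
    (hx : ∀ i ∈ S, EE A c l (x i)) : EE A c l (∑ i ∈ S, x i) := by
  classical
  induction S using Finset.induction_on with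
  | empty => simpa using EE_zero l
  | insert a S ha ih =>
    rw [Finset.sum_insert ha]
    exact EE_add (hx a (Finset.mem_insert_self _ _))
      (ih fun i hi => hx i (Finset.mem_insert_of_mem hi))

lemma EE_mono {l m : ℕ} (h : l ≤ m) {x : PP n R} (hx : EE A c l x) : EE A c m x := by
  obtain ⟨r, σ, h1, h2, h3, h4⟩ := hx
  exact ⟨r, σ, h1, fun i => supp_mono (fun s hs => lt_of_lt_of_le hs h) (h2 i), h3,
    fun s hs => h4 s (h.trans hs)⟩

lemma EE_D {l : ℕ} (i : Fin (n + 1)) {x : PP n R} (hx : IsCone M b x)
    (hl : Supp (fun s => s 0 + 1 < l) x) : EE A c l (Dop c i x) := by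
  classical
  refine ⟨fun _ => 0, Pi.single i x, ?_, ?_, ?_, fun _ _ => rfl⟩
  · intro j
    by_cases h : j = i
    · subst h
      simpa using hx
    · rw [Pi.single_eq_of_ne h]
      exact supp_zero
  · intro j
    by_cases h : j = i
    · subst h
      simpa using hl
    · rw [Pi.single_eq_of_ne h]
      exact supp_zero
  · rw [Finset.sum_eq_single i]
    · simp
    · intro j _ hj
      simp [hj]
    · intro h
      exact absurd (Finset.mem_univ i) h

lemma EE_basis {l m : ℕ} (hm : m < l) (a : Expo n → R) :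
    EE A c l (∑ s' ∈ A.Bas with s' 0 = m, C (a s') * bb A c s') := by
  classical
  refine ⟨fun s => if s.1 0 = m then a s.1 else 0, fun _ => 0, fun _ => supp_zero,
    fun _ => supp_zero, ?_, fun s hs => ?_⟩
  · rw [Finset.sum_filter, ← Finset.sum_coe_sort]
    simp only [map_zero, Finset.sum_const_zero, add_zero]
    refine Finset.sum_congr rfl fun s _ => ?_
    split_ifs
    · rfl
    · simp
  · show (if s.1 0 = m then a s.1 else 0) = 0
    rw [if_neg]
    omega

lemma C_inv_mul {a : R} (ha : IsUnit a) (x : PP n R) :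
    x = C (Ring.inverse a) * (C a * x) := by
  rw [← mul_assoc, ← C_mul, Ring.inverse_mul_cancel _ ha, C_1, one_mul]

lemma EE_exists (hdt : IsUnit (dt A c)) : ∀ (l : ℕ) (x : PP n R), IsCone M b x →
    Supp (fun s => s 0 < l) x → EE A c l x := by
  intro l
  induction l with
  | zero =>
    intro x _ hx
    have : x = 0 := by
      ext s
      by_contra h
      exact absurd (hx s h) (Nat.not_lt_zero _)
    rw [this]
    exact EE_zero 0
  | succ l ih =>
    intro x hx1 hx2
    refine supp_induction (P := fun s => InCone M b s ∧ s 0 < l + 1) (G := EE A c (l + 1))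
      (EE_zero _) (fun _ _ => EE_add) ?_ x (fun s hs => ⟨hx1 s hs, hx2 s hs⟩)
    rintro s r ⟨hs1, hs2⟩
    have hr : (monomial s r : PP n R) = C r * mon s := by
      unfold mon
      rw [C_mul_monomial, mul_one]
    rw [hr]
    apply EE_C
    rw [C_inv_mul hdt (mon s)]
    apply EE_C
    obtain ⟨a, σ, h1, h2, h3, -⟩ := red_at A c s hs1
    rw [h3]
    apply EE_add
    · exact EE_basis hs2 a
    · apply EE_sum
      intro i _
      rw [Yp_mul]
      have e1 : th i (σ i) - Dop c i (σ i) = th i (σ i) + C (-1) * Dop c i (σ i) := by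
        rw [C_neg, C_1]; ring
      rw [e1]
      apply EE_add
      · apply EE_mono (Nat.le_succ l)
        apply ih
        · exact supp_th i (h1 i)
        · exact supp_th i (supp_mono (fun s' hs' => by omega) (h2 i))
      · apply EE_C
        apply EE_D
        · exact h1 i
        · exact supp_mono (fun s' hs' => by omega) (h2 i)

/-! ### generation -/

lemma Phi_surj (hdt : IsUnit (dt A c)) : ∀ (l : ℕ) (x : PP n R), IsCone M b x →
    Supp (fun s => s 0 < l) x → ∃ w, Phi A c w = x := by
  intro l
  induction l with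
  | zero =>
    intro x _ hx
    have : x = 0 := by
      ext s
      by_contra h
      exact absurd (hx s h) (Nat.not_lt_zero _)
    rw [this]
    exact ⟨0, map_zero _⟩
  | succ l ih =>
    intro x hx1 hx2
    refine supp_induction (P := fun s => InCone M b s ∧ s 0 < l + 1)
      (G := fun x => ∃ w, Phi A c w = x)
      ⟨0, map_zero _⟩ ?_ ?_ x (fun s hs => ⟨hx1 s hs, hx2 s hs⟩)
    · rintro x y ⟨w, rfl⟩ ⟨w', rfl⟩
      exact ⟨w + w', map_add _ _ _⟩
    rintro s r ⟨hs1, hs2⟩
    have hr : (monomial s r : PP n R) = C r * mon s := by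
      unfold mon
      rw [C_mul_monomial, mul_one]
    rw [hr, C_inv_mul hdt (mon s)]
    obtain ⟨a, σ, h1, h2, h3, -⟩ := red_at A c s hs1
    rw [h3]
    have h4 : ∀ i, ∃ w, Phi A c w = σ i := fun i => ih (σ i) (h1 i)
      (supp_mono (fun s' hs' => by omega) (h2 i))
    choose w hw using h4
    refine ⟨r • (Ring.inverse (dt A c)) •
      ((fun s' : A.Bas => C (if s'.1 0 = s 0 then a s'.1 else 0)) +
      ∑ i, (fun s' : A.Bas => (X i * w i s' : MvPolynomial (Fin (n + 1)) R))), ?_⟩
    have e1 : ∑ s' : A.Bas, C (if s'.1 0 = s 0 then a s'.1 else 0) * bb A c s'.1 =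
        ∑ s' ∈ A.Bas with s' 0 = s 0, C (a s') * bb A c s' := by
      rw [Finset.sum_filter, ← Finset.sum_coe_sort A.Bas
        (fun s' => if s' 0 = s 0 then C (a s') * bb A c s' else 0)]
      apply Finset.sum_congr rfl
      intro s' _
      split_ifs
      · rfl
      · simp
    have e2 : ∑ i, Phi A c (fun s' : A.Bas => (X i * w i s' : MvPolynomial (Fin (n + 1)) R)) =
        ∑ i, Yp c i * σ i := by
      refine Finset.sum_congr rfl fun i _ => ?_
      rw [Phi_X, hw]
    rw [map_smul, map_smul, map_add, map_sum, Phi_C, smul_eq_C_mul, smul_eq_C_mul, e1, e2]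

lemma cone_aeval (P : MvPolynomial (Fin (n + 1)) R) :
    IsCone M false (aeval (Yp c) P) := by
  induction P using MvPolynomial.induction_on with
  | C r =>
    rw [aeval_C]
    have : (algebraMap R (PP n R)) r = monomial 0 r := rfl
    rw [this]
    apply supp_monomial
    intro k
    simp
  | add f g hf hg =>
    rw [map_add]
    exact supp_add hf hg
  | mul_X f i hf =>
    rw [map_mul, aeval_X]
    exact cone_mul hf (cone_Yp c i)

/-- basis elements lie in the cone and are homogeneous -/
lemma bb_cone (hJ : JConeStmt) (hn : 1 ≤ n) (hM : 1 ≤ M) (s : A.Bas) :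
    IsCone M b (bb A c s.1) ∧ HasLev (s.1 0) (bb A c s.1) := by
  unfold bb bbo
  split_ifs with h
  · obtain ⟨hb, hs⟩ := h
    subst hb
    have h1 := hJ n M R (fun i => th i (Fp c)) hn hM
      (fun i => ⟨supp_th i (cone_Fp c), supp_th i (lev_Fp c)⟩)
    rw [hs, A.top_lev]
    exact h1
  · exact ⟨supp_mon (A.cone s.1 s.2), supp_mon rfl⟩

lemma Phi_cone (hJ : JConeStmt) (hn : 1 ≤ n) (hM : 1 ≤ M)
    (w : A.Bas → MvPolynomial (Fin (n + 1)) R) : IsCone M b (Phi A c w) := by
  rw [Phi_apply]
  exact supp_sum fun s _ => cone_mul (cone_aeval _) (bb_cone hJ hn hM s).1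

/-! ### uniqueness -/

lemma uniq (hJ : JConeStmt) (hn : 1 ≤ n) (hM : 1 ≤ M) (hdt : IsUnit (dt A c)) :
    ∀ (l : ℕ) (r : A.Bas → R) (σ : Fin (n + 1) → PP n R), (∀ i, IsCone M b (σ i)) →
    (∀ i, Supp (fun s => s 0 < l) (σ i)) →
    ∑ s : A.Bas, C (r s) * bb A c s.1 = ∑ i, Dop c i (σ i) → r = 0 := by
  classical
  intro l
  induction l with
  | zero =>
    intro r σ _ h2 h3
    have h4 : ∀ i, σ i = 0 := by
      intro i
      ext s
      by_contra h
      exact absurd (h2 i s h) (Nat.not_lt_zero _)
    simp only [h4, map_zero, Finset.sum_const_zero] at h3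
    rw [← Phi_C] at h3
    have h5 := Phi_inj A c hdt _ h3
    ext1 s
    have h6 := congrFun h5 s
    simpa using h6
  | succ l ih =>
    intro r σ h1 h2 h3
    -- the relation in level `l + 1`
    have h4 : ∀ i, ∃ w, Phi A c w = cmp l (σ i) := fun i =>
      Phi_surj hdt (l + 1) _ (cmp_supp l (h1 i)) (cmp_supp l (h2 i))
    choose w hw using h4
    have h5 : Phi A c ((fun s => C (if s.1 0 = l + 1 then r s else 0)) +
        ∑ i, (fun s => X i * w i s)) = 0 := by
      rw [map_add, map_sum, Phi_C]
      have h6 := congrArg (cmp (l + 1)) h3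
      rw [map_sum, map_sum] at h6
      have e1 : ∀ s : A.Bas, cmp (l + 1) (C (r s) * bb A c s.1) =
          C (if s.1 0 = l + 1 then r s else 0) * bb A c s.1 := by
        intro s
        rw [← smul_eq_C_mul, map_smul]
        split_ifs with h
        · rw [cmp_of_lev (h ▸ (bb_cone hJ hn hM s).2), smul_eq_C_mul]
        · rw [cmp_of_lev_ne (bb_cone hJ hn hM s).2 (Ne.symm h)]
          simp
      have e2 : ∀ i, cmp (l + 1) (Dop c i (σ i)) = - (Yp c i * cmp l (σ i)) := by
        intro i
        rw [Dop_apply, map_sub, cmp_mul_lev (lev_Yp c i)]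
        have : cmp (l + 1) (th i (σ i)) = 0 := by
          ext s
          rw [coeff_cmp, coeff_zero]
          split_ifs with h
          · by_contra h'
            have h'' : s 0 < l + 1 := supp_th i (h2 i) s h'
            omega
          · rfl
        rw [this, zero_sub]
      simp only [e1, e2] at h6
      rw [h6, ← Finset.sum_add_distrib]
      apply Finset.sum_eq_zero
      intro i _
      rw [Phi_X, hw]
      ring
    have h6 := Phi_inj A c hdt _ h5
    have h7 : ∀ s : A.Bas, ∑ i, X i * w i s = 0 := by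
      intro s
      have h8 := congrFun h6 s
      simp only [Pi.add_apply, Finset.sum_apply, Pi.zero_apply] at h8
      have h9 : (if s.1 0 = l + 1 then r s else 0) = 0 := by
        have h10 := congrArg constantCoeff h8
        simpa only [_root_.map_add, _root_.map_sum, constantCoeff_C, _root_.map_mul,
          constantCoeff_X, zero_mul, Finset.sum_const_zero, add_zero, RingHom.map_zero] using h10
      rw [h9, C_0, zero_add] at h8
      exact h8
    have h8 : ∀ s : A.Bas, ∃ U : Fin (n + 1) → Fin (n + 1) → MvPolynomial (Fin (n + 1)) R,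
        ∀ i, w i s = ∑ j, X j * (U i j - U j i) := fun s => koszul' (fun i => w i s) (h7 s)
    choose U hU using h8
    have h9 : ∃ V : Fin (n + 1) → Fin (n + 1) → PP n R,
        (∀ i j, IsCone M b (V i j)) ∧ (∀ i j, Supp (fun s => s 0 < l) (V i j)) ∧
        ∀ i, cmp l (σ i) = ∑ j, Yp c j * (V i j - V j i) := by
      have h10 : ∀ i, cmp l (σ i) = ∑ j, Yp c j * (Phi A c (fun s => U s i j) -
          Phi A c (fun s => U s j i)) := by
        intro i
        rw [← hw i]
        have h11 : w i = ∑ j, (fun s => X j * (U s i j - U s j i)) := by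
          ext1 s
          rw [Finset.sum_apply]
          exact hU s i
        rw [h11, map_sum]
        refine Finset.sum_congr rfl fun j _ => ?_
        rw [Phi_X, ← map_sub]
        rfl
      cases l with
      | zero =>
        refine ⟨fun _ _ => 0, fun _ _ => supp_zero, fun _ _ => supp_zero, fun i => ?_⟩
        have h12 := congrArg (cmp 0) (h10 i)
        rw [cmp_of_lev (cmp_lev 0 _), map_sum] at h12
        rw [h12]
        refine Finset.sum_congr rfl fun j _ => ?_
        rw [cmp_zero_mul_lev (lev_Yp c j)]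
        simp
      | succ l =>
        refine ⟨fun i j => cmp l (Phi A c fun s => U s i j),
          fun i j => cmp_supp l (Phi_cone hJ hn hM _),
          fun i j => supp_mono (fun s hs => by omega) (cmp_lev l _), fun i => ?_⟩
        have h12 := congrArg (cmp (l + 1)) (h10 i)
        rw [cmp_of_lev (cmp_lev (l + 1) _), map_sum] at h12
        rw [h12]
        refine Finset.sum_congr rfl fun j _ => ?_
        rw [cmp_mul_lev (lev_Yp c j), map_sub]
    obtain ⟨V, hV1, hV2, hV3⟩ := h9
    -- replace the top part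
    refine ih r (fun i => σ i - cmp l (σ i) + ∑ j, th j (V i j - V j i)) ?_ ?_ ?_
    · intro i
      exact supp_add (supp_sub (h1 i) (cmp_supp l (h1 i)))
        (supp_sum fun j _ => supp_th j (supp_sub (hV1 i j) (hV1 j i)))
    · intro i
      apply supp_add
      · intro s hs
        rw [coeff_sub, coeff_cmp] at hs
        split_ifs at hs with h
        · rw [sub_self] at hs
          exact absurd rfl hs
        · rw [sub_zero] at hs
          have h' : s 0 < l + 1 := h2 i s hs
          show s 0 < l
          omega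
      · exact supp_sum fun j _ => supp_th j (supp_sub (hV2 i j) (hV2 j i))
    · rw [h3]
      have e1 : ∑ i, Dop c i (σ i - cmp l (σ i) + ∑ j, th j (V i j - V j i))
          = (∑ i, Dop c i (σ i)) + ((∑ i, ∑ j, Dop c i (th j (V i j - V j i)))
            - ∑ i, Dop c i (cmp l (σ i))) := by
        rw [← Finset.sum_sub_distrib, ← Finset.sum_add_distrib]
        refine Finset.sum_congr rfl fun i _ => ?_
        rw [map_add, map_sub, map_sum]
        ring
      rw [e1]
      have e2 : ∑ i, Dop c i (cmp l (σ i)) = (∑ i, ∑ j, Dop c i (th j (V i j - V j i)))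
          - ∑ i, ∑ j, Dop c i (Dop c j (V i j - V j i)) := by
        rw [← Finset.sum_sub_distrib]
        refine Finset.sum_congr rfl fun i _ => ?_
        rw [hV3 i, map_sum, ← Finset.sum_sub_distrib]
        refine Finset.sum_congr rfl fun j _ => ?_
        rw [Yp_mul, map_sub]
      have e3 : ∑ i, ∑ j, Dop c i (Dop c j (V i j - V j i)) = 0 := by
        have e4 : ∑ i, ∑ j, Dop c i (Dop c j (V j i)) = ∑ i, ∑ j, Dop c i (Dop c j (V i j)) := by
          rw [Finset.sum_comm]
          refine Finset.sum_congr rfl fun i _ => Finset.sum_congr rfl fun j _ => ?_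
          rw [Dop_comm]
        simp only [map_sub, Finset.sum_sub_distrib]
        rw [e4, sub_self]
      rw [e2, e3]
      ring

end cad

end Pool.Agent.Helper95_CM.H53
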