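import Pool.Agent.Helper53_CM.Hb

set_option autoImplicit false
set_option linter.unusedSectionVars false

/-!
# CM project, block HB: HB1 - HB5
-/

noncomputable section

namespace Pool.Agent.Helper95_CM.H53

open MvPolynomial Pool.Agent.Helper95_CM

section cad
variable {n M : ℕ} {b : Bool} {A : CAD n M b} {R : Type} [CommRing R] {c : Grid n M → R}

lemma crd_dec {Cc : PP n R →ₗ[R] (A.Bas → R)} (hC : IsCrd A c Cc) (r : A.Bas → R)
    (σ : Fin (n + 1) → PP n R) (hσ : ∀ i, IsCone M b (σ i)) :
    Cc ((∑ s : A.Bas, C (r s) * bb A c s.1) + ∑ i, Dop c i (σ i)) = r := by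
  classical
  rw [map_add, map_sum, map_sum]
  have e1 : ∑ i, Cc (Dop c i (σ i)) = 0 := Finset.sum_eq_zero fun i _ => hC.kill i _ (hσ i)
  have e2 : ∀ s : A.Bas, Cc (C (r s) * bb A c s.1) = Pi.single s (r s) := by
    intro s
    rw [← smul_eq_C_mul, map_smul, hC.basis, ← Pi.single_smul, smul_eq_mul, mul_one]
  rw [e1, add_zero]
  simp only [e2]
  exact Finset.univ_sum_single r

end cad

theorem hb1 (hJ : JConeStmt) : Hb1Stmt := by
  intro n M b A R _ c hn hM hdt
  classical
  have h1 : ∀ s : Expo n, ∃ r : A.Bas → R, InCone M b s →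
      ∃ σ : Fin (n + 1) → PP n R, (∀ i, IsCone M b (σ i)) ∧
      (mon s : PP n R) = (∑ s' : A.Bas, C (r s') * bb A c s'.1) + ∑ i, Dop c i (σ i) := by
    intro s
    by_cases hs : InCone M b s
    · obtain ⟨r, σ, h1, -, h3, -⟩ := EE_exists (A := A) (c := c) hdt (s 0 + 1) (mon s)
        (supp_mon hs) (supp_mon (Nat.lt_succ_self _))
      exact ⟨r, fun _ => ⟨σ, h1, h3⟩⟩
    · exact ⟨0, fun h => absurd h hs⟩
  choose r hr using h1
  set Cc : PP n R →ₗ[R] (A.Bas → R) :=
    (basisMonomials (Fin (n + 1)) R).constr R (fun s => if InCone M b s then r s else 0) with hCc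
  have hC : ∀ s, Cc (mon s) = if InCone M b s then r s else 0 := by
    intro s
    have h2 := (basisMonomials (Fin (n + 1)) R).constr_basis R
      (fun s => if InCone M b s then r s else 0) s
    rw [coe_basisMonomials] at h2
    exact h2
  have hdec : ∀ x, IsCone M b x → ∃ σ : Fin (n + 1) → PP n R, (∀ i, IsCone M b (σ i)) ∧
      x = (∑ s' : A.Bas, C (Cc x s') * bb A c s'.1) + ∑ i, Dop c i (σ i) := by
    intro x hx
    refine supp_induction (G := fun x => ∃ σ : Fin (n + 1) → PP n R, (∀ i, IsCone M b (σ i)) ∧
      x = (∑ s' : A.Bas, C (Cc x s') * bb A c s'.1) + ∑ i, Dop c i (σ i)) ?_ ?_ ?_ x hx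
    · exact ⟨fun _ => 0, fun _ => supp_zero, by simp⟩
    · rintro x y ⟨σ, h1, h2⟩ ⟨σ', h1', h2'⟩
      refine ⟨fun i => σ i + σ' i, fun i => supp_add (h1 i) (h1' i), ?_⟩
      have e1 : ∑ s : A.Bas, C (Cc (x + y) s) * bb A c s.1 =
          (∑ s : A.Bas, C (Cc x s) * bb A c s.1) + ∑ s : A.Bas, C (Cc y s) * bb A c s.1 := by
        rw [← Finset.sum_add_distrib]
        exact Finset.sum_congr rfl fun s _ => by rw [map_add, Pi.add_apply, C_add, add_mul]
      have e2 : ∑ i, Dop c i (σ i + σ' i) = (∑ i, Dop c i (σ i)) + ∑ i, Dop c i (σ' i) := by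
        rw [← Finset.sum_add_distrib]
        exact Finset.sum_congr rfl fun s _ => map_add _ _ _
      rw [e1, e2]
      nth_rewrite 1 [h2]
      nth_rewrite 1 [h2']
      ring
    · intro s a hs
      obtain ⟨σ, h1, h2⟩ := hr s hs
      have h3 : (monomial s a : PP n R) = C a * mon s := by
        unfold mon
        rw [C_mul_monomial, mul_one]
      refine ⟨fun i => C a * σ i, fun i => supp_C_mul a (h1 i), ?_⟩
      have e0 : Cc (C a * mon s) = a • r s := by
        rw [← smul_eq_C_mul, map_smul, hC, if_pos hs]
      have e1 : ∑ s' : A.Bas, C (Cc (C a * mon s) s') * bb A c s'.1 =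
          C a * ∑ s' : A.Bas, C (r s s') * bb A c s'.1 := by
        rw [Finset.mul_sum]
        refine Finset.sum_congr rfl fun s' _ => ?_
        rw [e0, Pi.smul_apply, smul_eq_mul, C_mul, mul_assoc]
      have e2 : ∑ i, Dop c i (C a * σ i) = C a * ∑ i, Dop c i (σ i) := by
        rw [Finset.mul_sum]
        refine Finset.sum_congr rfl fun s _ => ?_
        rw [← smul_eq_C_mul, ← smul_eq_C_mul, map_smul]
      rw [h3, e1, e2, ← mul_add, ← h2]
  have huniq : ∀ (x : PP n R) (r' : A.Bas → R) (σ : Fin (n + 1) → PP n R), IsCone M b x →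
      (∀ i, IsCone M b (σ i)) →
      x = (∑ s' : A.Bas, C (r' s') * bb A c s'.1) + ∑ i, Dop c i (σ i) → Cc x = r' := by
    intro x r' σ hx hσ h
    obtain ⟨σ0, h1, h2⟩ := hdec x hx
    obtain ⟨l, hl⟩ := exists_lev (fun i => σ i - σ0 i)
    have h3 := uniq (A := A) (c := c) hJ hn hM hdt l (fun s => Cc x s - r' s)
      (fun i => σ i - σ0 i) (fun i => supp_sub (hσ i) (h1 i)) hl (by
        have e1 : ∑ s : A.Bas, C (Cc x s - r' s) * bb A c s.1 =
            (∑ s : A.Bas, C (Cc x s) * bb A c s.1) - ∑ s : A.Bas, C (r' s) * bb A c s.1 := by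
          rw [← Finset.sum_sub_distrib]
          exact Finset.sum_congr rfl fun s _ => by rw [C_sub, sub_mul]
        have e2 : ∑ i, Dop c i (σ i - σ0 i) = (∑ i, Dop c i (σ i)) - ∑ i, Dop c i (σ0 i) := by
          rw [← Finset.sum_sub_distrib]
          exact Finset.sum_congr rfl fun s _ => map_sub _ _ _
        rw [e1, e2, sub_eq_sub_iff_add_eq_add, ← h2]
        rw [add_comm]
        exact h.symm ▸ rfl)
    ext1 s
    have h4 := congrFun h3 s
    exact sub_eq_zero.mp h4
  have hfin : IsCrd A c Cc := by
    refine ⟨?_, ?_, ?_⟩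
    · intro s
      refine huniq _ _ (fun _ => 0) (bb_cone hJ hn hM s).1 (fun _ => supp_zero) ?_
      rw [Finset.sum_eq_single s]
      · simp
      · intro s' _ hs'
        simp [hs']
      · intro h
        exact absurd (Finset.mem_univ s) h
    · intro i σ hσ
      refine huniq _ _ (Pi.single i σ) (cone_Dop c i hσ) ?_ ?_
      · intro j
        by_cases h : j = i
        · subst h
          simpa using hσ
        · rw [Pi.single_eq_of_ne h]
          exact supp_zero
      · rw [Finset.sum_eq_single i (f := fun j => Dop c j ((Pi.single i σ : Fin (n + 1) → PP n R) j))]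
        · simp
        · intro j _ hj
          simp [hj]
        · intro h
          exact absurd (Finset.mem_univ i) h
    · intro s hs
      rw [hC, if_neg hs]
  have hex : ∃ C, IsCrd A c C := ⟨Cc, hfin⟩
  unfold crd
  rw [dif_pos hex]
  exact hex.choose_spec

theorem hb2 (h1 : Hb1Stmt) : Hb2Stmt := by
  intro n M b A R _ c hn hM hdt l x hx hl
  obtain ⟨r, σ, e1, e2, e3, e4⟩ := EE_exists (A := A) (c := c) hdt (l + 1) x hx
    (supp_mono (fun s hs => Nat.lt_succ_of_le hs) hl)
  have hr : crd A c x = r := by
    rw [e3]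
    exact crd_dec (h1 n M b A R c hn hM hdt) r σ e1
  refine ⟨σ, e1, fun i => supp_mono (fun s hs => by omega) (e2 i), ?_, fun s hs => ?_⟩
  · rw [hr]
    exact e3
  · rw [hr]
    exact e4 s hs

theorem hb3 (h1 : Hb1Stmt) : Hb3Stmt := by
  intro n M b A R S _ _ g c hn hM hdt x s
  have hdt' : IsUnit (dt A (fun β => g (c β))) := by
    have h2 : dt A (fun β => g (c β)) = g (dt A c) := by
      have h3 : ((aeval (fun β => g (c β)) : MvPolynomial (Grid n M) ℤ →ₐ[ℤ] S).toRingHom) =
          g.comp ((aeval c : MvPolynomial (Grid n M) ℤ →ₐ[ℤ] R).toRingHom) := by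
        apply MvPolynomial.ringHom_ext
        · intro z
          simp
        · intro β
          simp
      exact congrArg (fun φ : MvPolynomial (Grid n M) ℤ →+* S => φ A.Dt) h3
    rw [h2]
    exact hdt.map g
  have c1 := h1 n M b A R c hn hM hdt
  have c2 := h1 n M b A S (fun β => g (c β)) hn hM hdt'
  induction x using MvPolynomial.induction_on' with
  | monomial v a =>
    have h3 : (monomial v a : PP n R) = C a * mon v := by
      unfold mon
      rw [C_mul_monomial, mul_one]
    rw [h3, map_mul, map_C, map_mon, ← smul_eq_C_mul, ← smul_eq_C_mul, map_smul, map_smul,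
      Pi.smul_apply, Pi.smul_apply, smul_eq_mul, smul_eq_mul, map_mul]
    congr 1
    by_cases hv : InCone M b v
    · obtain ⟨σ, e1, -, e3, -⟩ := hb2 h1 n M b A R c hn hM hdt (v 0) (mon v) (supp_mon hv)
        (supp_mon le_rfl)
      have e4 := congrArg (map g) e3
      rw [map_mon, map_add, map_sum, map_sum] at e4
      have e5 : ∑ s' : A.Bas, map g (C (crd A c (mon v) s') * bb A c s'.1) =
          ∑ s' : A.Bas, C (g (crd A c (mon v) s')) * bb A (fun β => g (c β)) s'.1 := by
        refine Finset.sum_congr rfl fun s' _ => ?_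
        rw [map_mul, map_C]
        unfold bb
        rw [map_bbo]
      have e6 : ∑ i, map g (Dop c i (σ i)) = ∑ i, Dop (fun β => g (c β)) i (map g (σ i)) :=
        Finset.sum_congr rfl fun i _ => map_Dop g c i _
      rw [e5, e6] at e4
      have e7 := crd_dec c2 (fun s' => g (crd A c (mon v) s')) (fun i => map g (σ i))
        (fun i => supp_map g (e1 i))
      rw [← e4] at e7
      rw [e7]
    · rw [c1.out v hv, c2.out v hv]
      simp
  | add p q hp hq =>
    rw [map_add, map_add, map_add, Pi.add_apply, Pi.add_apply, hp, hq, map_add]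

theorem hb4 (h1 : Hb1Stmt) : Hb4Stmt := by
  intro n M b A R _ c S hn hM hdt hcS
  have hC := h1 n M b A R c hn hM hdt
  have hdS : dt A c ∈ S := aeval_mem c hcS _
  have key : ∀ (l : ℕ) (x : PP n R), IsCone M b x → (∀ s, coeff s x ∈ S) →
      Supp (fun s => s 0 < l) x → ∀ s, dt A c ^ l * crd A c x s ∈ S := by
    intro l
    induction l with
    | zero =>
      intro x _ _ hx s
      have : x = 0 := by
        ext s
        by_contra h
        exact absurd (hx s h) (Nat.not_lt_zero _)
      rw [this]
      simp
    | succ l ih =>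
      intro x hx hxS hl s
      have hmonS : ∀ v, InCone M b v → v 0 < l + 1 → dt A c ^ (l + 1) * crd A c (mon v) s ∈ S := by
        intro v hv hvl
        obtain ⟨a, σ, e1, e2, e3, e4⟩ := red_at A c v hv
        obtain ⟨e5, e6⟩ := e4 S hcS
        have e7 : dt A c * crd A c (mon v) s = (if s.1 0 = v 0 then a s.1 else 0) +
            ∑ i, crd A c (th i (σ i)) s := by
          have e8 : crd A c (C (dt A c) * mon v) s =
              crd A c ((∑ s' ∈ A.Bas with s' 0 = v 0, C (a s') * bb A c s') +
              ∑ i, Yp c i * σ i) s := by rw [e3]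
          rw [← smul_eq_C_mul, map_smul, Pi.smul_apply, smul_eq_mul] at e8
          rw [e8, map_add, Pi.add_apply]
          congr 1
          · have e9 : ∑ s' ∈ A.Bas with s' 0 = v 0, C (a s') * bb A c s' =
                ∑ s' : A.Bas, C (if s'.1 0 = v 0 then a s'.1 else 0) * bb A c s'.1 := by
              rw [Finset.sum_filter, ← Finset.sum_coe_sort A.Bas
                (fun s' => if s' 0 = v 0 then C (a s') * bb A c s' else 0)]
              apply Finset.sum_congr rfl
              intro s' _
              split_ifs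
              · rfl
              · simp
            have e10 := crd_dec hC (fun s' : A.Bas => if s'.1 0 = v 0 then a s'.1 else 0)
              (fun _ => 0) (fun _ => supp_zero)
            simp only [map_zero, Finset.sum_const_zero, add_zero] at e10
            rw [e9, e10]
          · rw [map_sum, Finset.sum_apply]
            refine Finset.sum_congr rfl fun i _ => ?_
            rw [Yp_mul, map_sub, hC.kill i _ (e1 i), sub_zero]
        rw [pow_succ, mul_assoc, e7, mul_add, Finset.mul_sum]
        apply S.add_mem
        · apply S.mul_mem (S.pow_mem hdS _)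
          split_ifs
          · exact e5 _
          · exact S.zero_mem
        · apply S.sum_mem
          intro i _
          apply ih _ (supp_th i (e1 i))
          · intro s'
            rw [coeff_th]
            exact S.mul_mem (natCast_mem S _) (e6 i s')
          · exact supp_th i (supp_mono (fun s' hs' => by omega) (e2 i))
      have hexp : crd A c x s = ∑ v ∈ x.support, coeff v x * crd A c (mon v) s := by
        conv_lhs => rw [x.as_sum]
        rw [map_sum, Finset.sum_apply]
        refine Finset.sum_congr rfl fun v _ => ?_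
        have h3 : (monomial v (coeff v x) : PP n R) = coeff v x • mon v := by
          unfold mon
          rw [smul_monomial, smul_eq_mul, mul_one]
        rw [h3, map_smul, Pi.smul_apply, smul_eq_mul]
      rw [hexp, Finset.mul_sum]
      apply S.sum_mem
      intro v hv
      have e1 : dt A c ^ (l + 1) * (coeff v x * crd A c (mon v) s) =
          coeff v x * (dt A c ^ (l + 1) * crd A c (mon v) s) := by ring
      rw [e1]
      exact S.mul_mem (hxS v) (hmonS v (hx v (mem_support_iff.mp hv)) (hl v (mem_support_iff.mp hv)))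
  intro l x hxS hl s
  -- split off the part outside of the cone
  classical
  have hexp : crd A c x s = ∑ v ∈ x.support, coeff v x * crd A c (mon v) s := by
    conv_lhs => rw [x.as_sum]
    rw [map_sum, Finset.sum_apply]
    refine Finset.sum_congr rfl fun v _ => ?_
    have h3 : (monomial v (coeff v x) : PP n R) = coeff v x • mon v := by
      unfold mon
      rw [smul_monomial, smul_eq_mul, mul_one]
    rw [h3, map_smul, Pi.smul_apply, smul_eq_mul]
  rw [hexp, Finset.mul_sum]
  apply S.sum_mem
  intro v hv
  have e1 : dt A c ^ (l + 1) * (coeff v x * crd A c (mon v) s) =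
      coeff v x * (dt A c ^ (l + 1) * crd A c (mon v) s) := by ring
  rw [e1]
  apply S.mul_mem (hxS v)
  by_cases hcv : InCone M b v
  · apply key (l + 1) (mon v) (supp_mon hcv)
    · intro s'
      unfold mon
      rw [coeff_monomial]
      split_ifs
      · exact S.one_mem
      · exact S.zero_mem
    · have h5 : v 0 ≤ l := hl v (mem_support_iff.mp hv)
      exact supp_mon (Nat.lt_succ_of_le h5)
  · rw [hC.out v hcv]
    simp

theorem hb5 (h3 : Hb3Stmt) : Hb5Stmt := by
  intro n M b A R _ f g c hn hM hdt hg x s
  have hadd : ∀ p q : PP n R, cder g (p + q) = cder g p + cder g q := by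
    intro p q
    ext v
    rw [coeff_cder, coeff_add, coeff_add, coeff_cder, coeff_cder, map_add]
  induction x using MvPolynomial.induction_on' with
  | monomial v a =>
    have e1 : cder g (monomial v a : PP n R) = (g a) • mon v := by
      classical
      ext v'
      unfold mon
      rw [coeff_cder, coeff_smul, coeff_monomial, coeff_monomial]
      split_ifs
      · rw [smul_eq_mul, mul_one]
      · simp
    have e2 : (monomial v a : PP n R) = a • mon v := by
      unfold mon
      rw [smul_monomial, smul_eq_mul, mul_one]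
    rw [e1, e2, map_smul, map_smul, Pi.smul_apply, Pi.smul_apply, smul_eq_mul, smul_eq_mul]
    have e3 := h3 n M b A R R f c hn hM hdt (mon v) s
    rw [map_mon] at e3
    rw [e3, mul_comm a, hg, mul_comm]
  | add p q hp hq =>
    rw [hadd, map_add, map_add, Pi.add_apply, Pi.add_apply, hp, hq, map_add]

end Pool.Agent.Helper95_CM.H53
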